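import Pool.Agent.Helper97.Ku.GoalsC

/-! Heights of the points of a branch. -/

namespace Pool.Agent.Helper97.Ku.PkBHT

open Set

theorem mem_bo {P : Prop} {p : Cond} : p ∈ (bo P : BA) ↔ P := by
  unfold bo
  constructor
  · intro h
    obtain ⟨r, _, i, _⟩ := RO.mem_iSup.1 h p le_rfl
    exact i
  · intro h
    exact RO.mem_iSup.2 fun q _ => ⟨q, le_rfl, h, RO.mem_top q⟩

theorem fn_tot (b : FN Om BA) (i : Om) (p : Cond) : ∃ q, q ≤ p ∧ ∃ j, q ∈ b.v i j := by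
  have h : p ∈ ⨆ j, b.v i j := by rw [b.tot i]; exact RO.mem_top p
  exact RO.mem_iSup.1 h p le_rfl

theorem fn_eq (b : FN Om BA) {i j k : Om} {p : Cond} (h : p ∈ b.v i j) (h' : p ∈ b.v i k) :
    j = k := by
  by_contra hne
  have h1 : p ∈ b.v i j ⊓ b.v i k := RO.mem_inf.2 ⟨h, h'⟩
  rw [b.fn i j k hne] at h1
  exact RO.not_mem_bot p h1

theorem brF1 {G : Grd Om} {x b : FN Om BA} {p : Cond} (h : p ∈ brFV G x b) {α β n m : Om}
    (hαβ : α < β) {q : Cond} (hq : q ≤ p) (h1 : q ∈ b.v α n) (h2 : q ∈ b.v β m) :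
    q ∈ Rv G x n m := by
  have h' := (RO.mem_inf.1 h).1
  have h3 := RO.mem_iInf.1 (RO.mem_iInf.1 (RO.mem_iInf.1 (RO.mem_iInf.1 h' α) β) n) m
  exact RO.mem_himp.1 h3 q hq (RO.mem_inf.2 ⟨mem_bo.2 hαβ, RO.mem_inf.2 ⟨h1, h2⟩⟩)

theorem brF2 {G : Grd Om} {x b : FN Om BA} {p : Cond} (h : p ∈ brFV G x b) {α n i : Om}
    {q : Cond} (hq : q ≤ p) (h1 : q ∈ b.v α n) (h2 : q ∈ Rv G x i n) :
    ∃ r, r ≤ q ∧ ∃ β, β < α ∧ r ∈ b.v β i := by
  have h' := (RO.mem_inf.1 h).2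
  have h3 := RO.mem_iInf.1 (RO.mem_iInf.1 (RO.mem_iInf.1 h' α) n) i
  have h4 := RO.mem_himp.1 h3 q hq (RO.mem_inf.2 ⟨h1, h2⟩)
  obtain ⟨r, hr, β, hβ⟩ := RO.mem_iSup.1 h4 q le_rfl
  exact ⟨r, hr, β, mem_bo.1 (RO.mem_inf.1 hβ).1, (RO.mem_inf.1 hβ).2⟩

theorem bht : G_BHT := by
  intro G x ht b p hT hb α
  have key : ∀ α : Om, ∀ n q, q ≤ p → q ∈ b.v α n → q ∈ ht.v n α := by
    intro α
    induction α using WellFoundedLT.induction with
    | ind α ih =>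
      intro n q hq hqb
      refine RO.dense fun r hr => ?_
      obtain ⟨s, hs, β, hβ⟩ := fn_tot ht n r
      have hsp : s ≤ p := (hs.trans hr).trans hq
      have hsb : s ∈ b.v α n := RO.lower (hs.trans hr) hqb
      rcases lt_trichotomy β α with hlt | heq | hgt
      · exfalso
        obtain ⟨t, ht', n', hn'⟩ := fn_tot b β s
        have h1 : t ∈ ht.v n' β := ih β hlt n' t (ht'.trans hsp) hn'
        have h2 : t ∈ Rv G x n' n := brF1 hb hlt (ht'.trans hsp) hn' (RO.lower ht' hsb)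
        have h3 := RO.mem_himp.1 (hT.ht_lt n' n β β) t (ht'.trans hsp)
          (RO.mem_inf.2 ⟨h2, RO.mem_inf.2 ⟨h1, RO.lower ht' hβ⟩⟩)
        exact lt_irrefl _ (mem_bo.1 h3)
      · exact ⟨s, hs, heq ▸ hβ⟩
      · exfalso
        have h1 := RO.mem_himp.1 (hT.ht_ex n α β hgt) s hsp hβ
        obtain ⟨t, ht', i, hi⟩ := RO.mem_iSup.1 h1 s le_rfl
        obtain ⟨hi1, hi2⟩ := RO.mem_inf.1 hi
        obtain ⟨u, hu, β', hβ', hβ'2⟩ := brF2 hb (ht'.trans hsp) (RO.lower ht' hsb) hi1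
        have h2 : u ∈ ht.v i β' := ih β' hβ' i u (hu.trans (ht'.trans hsp)) hβ'2
        have h3 := fn_eq ht h2 (RO.lower hu hi2)
        exact absurd h3 (ne_of_lt hβ')
  intro n
  exact RO.mem_himp.2 fun q hq hqb => key α n q hq hqb

theorem conv : G_BHT → G_CONV := by
  intro hB G x ht b p hT hb
  have hB' : ∀ α n q, q ≤ p → q ∈ b.v α n → q ∈ ht.v n α := fun α n q hq h =>
    RO.mem_himp.1 (hB G x ht b p hT hb α n) q hq h
  refine ⟨⟨?_, ?_, ?_⟩, ?_⟩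
  · intro n m
    refine RO.mem_himp.2 fun q hq hqb => ?_
    obtain ⟨h1, h2⟩ := RO.mem_inf.1 hqb
    refine RO.mem_sup.2 fun r hr => ?_
    obtain ⟨s, hs, α, hα⟩ := RO.mem_iSup.1 h1 r hr
    obtain ⟨t, ht', β, hβ⟩ := RO.mem_iSup.1 h2 s (hs.trans hr)
    have htp : t ≤ p := ((ht'.trans hs).trans hr).trans hq
    refine ⟨t, ht'.trans hs, ?_⟩
    rcases lt_trichotomy α β with hlt | heq | hgt
    · exact Or.inl (brF1 hb hlt htp (RO.lower ht' hα) hβ)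
    · subst heq
      right
      refine RO.mem_sup.2 fun u hu => ⟨u, le_rfl, Or.inl (mem_bo.2 ?_)⟩
      exact fn_eq b (RO.lower ht' hα) hβ
    · right
      refine RO.mem_sup.2 fun u hu => ⟨u, le_rfl, Or.inr ?_⟩
      exact RO.lower hu (brF1 hb hgt htp hβ (RO.lower ht' hα))
  · intro n m
    refine RO.mem_himp.2 fun q hq hqb => ?_
    obtain ⟨h1, h2⟩ := RO.mem_inf.1 hqb
    refine RO.mem_iSup.2 fun r hr => ?_
    obtain ⟨s, hs, α, hα⟩ := RO.mem_iSup.1 h1 r hr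
    obtain ⟨t, ht', β, _, hβ⟩ := brF2 hb ((hs.trans hr).trans hq) hα
      (RO.lower (hs.trans hr) h2)
    exact ⟨t, ht'.trans hs, β, hβ⟩
  · intro α
    refine RO.mem_iSup.2 fun q hq => ?_
    obtain ⟨r, hr, n, hn⟩ := fn_tot b α q
    refine ⟨r, hr, n, RO.mem_inf.2 ⟨?_, hB' α n r (hr.trans hq) hn⟩⟩
    exact RO.mem_iSup.2 fun s hs => ⟨s, le_rfl, α, RO.lower hs hn⟩
  · intro D hD q hq hc i q1 q2 h1 h2 he hm hm2
    obtain ⟨α, n⟩ := i
    have hm' : q1 ∈ b.v α n := hm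
    have hm2' : q2 ∈ (b.v α n)ᶜ := hm2
    have h3 : q1 ∈ ⨆ α, b.v α n :=
      RO.mem_iSup.2 fun s hs => ⟨s, le_rfl, α, RO.lower hs hm'⟩
    have h4 : q2 ∉ (⨆ α, b.v α n)ᶜ := hc n q1 q2 h1 h2 he h3
    rw [RO.mem_compl] at h4
    push Not at h4
    obtain ⟨r, hr, hr'⟩ := h4
    obtain ⟨s, hs, α', hα'⟩ := RO.mem_iSup.1 hr' r le_rfl
    have hs2 : s ≤ q2 := hs.trans hr
    have h5 : s ∈ ht.v n α' := hB' α' n s ((hs2.trans h2).trans hq) hα'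
    have h6 : q1.rs D ∈ ht.v n α := hD n α q1 (hB' α n q1 (h1.trans hq) hm')
    rw [he] at h6
    have h7 : s ∈ ht.v n α := RO.lower (hs2.trans (Cond.le_rs q2 D)) h6
    have h8 := fn_eq ht h7 h5
    subst h8
    exact RO.mem_compl.1 hm2' s hs2 hα'

end Pool.Agent.Helper97.Ku.PkBHT
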