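import Pool.Agent.Helper97.Ku.GoalsA

/-! Packet COLL of MP_47bc22_lc. -/

set_option autoImplicit false

namespace Pool.Agent.Helper97.Ku.PkColl

universe u

open BSet

theorem coll : G_FULL.{u} → G_COLL.{u} := by
  intro full L _ φ hφ a
  have hex : ∀ i : a.ix, ∃ y : BSet L, φ (a.el i) y = ⨆ y, φ (a.el i) y := by
    intro i
    obtain ⟨⟨y, -, hy⟩, -⟩ := full L (φ (a.el i)) (fun _ => ⊤) (hφ.1 _) (Ext.const ⊤)
      ⟨mk PEmpty (fun i => i.elim) (fun i => i.elim), rfl⟩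
    exact ⟨y, by simpa using hy⟩
  choose Y hY using hex
  refine ⟨mk a.ix Y (fun _ => ⊤), fun x => ?_⟩
  rw [mem_def x a, iSup_inf_eq]
  refine iSup_le fun i => ?_
  have h1 : x.eq (a.el i) ⊓ (⨆ y, φ x y) ≤ φ (a.el i) (Y i) := by
    rw [hY i, inf_iSup_eq]
    exact iSup_mono fun y => hφ.2 y x (a.el i)
  have h2 : x.eq (a.el i) ⊓ φ (a.el i) (Y i) ≤ φ x (Y i) := by
    rw [eq_comm']
    exact hφ.2 (Y i) (a.el i) x
  have h3 : a.bv i ⊓ x.eq (a.el i) ⊓ (⨆ y, φ x y) ≤ φ x (Y i) := by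
    refine le_trans (le_inf ?_ ?_) h2
    · exact le_trans inf_le_left inf_le_right
    · exact le_trans (inf_le_inf_right _ inf_le_right) h1
  refine le_trans ?_ (le_iSup _ (Y i))
  refine le_inf ?_ h3
  exact le_trans le_top (el_mem (mk a.ix Y (fun _ => ⊤)) i)

theorem found : G_FOUND.{u} := by
  intro L _ a
  obtain ⟨m, hm⟩ : ∃ m : L, m = ⨆ x : BSet L, (x.mem a ⊓ ⨅ y : BSet L, (y.mem x ⇨ (y.mem a)ᶜ)) :=
    ⟨_, rfl⟩
  rw [← hm]
  refine iSup_le fun x => ?_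
  induction x with
  | mk α A B ih =>
    have h1 : mᶜ ≤ ⨅ y : BSet L, (y.mem (mk α A B) ⇨ (y.mem a)ᶜ) := by
      refine le_iInf fun y => ?_
      rw [le_himp_iff, le_compl_iff_disjoint_right, disjoint_iff_inf_le, mem_mk, inf_iSup_eq,
        iSup_inf_eq]
      refine iSup_le fun i => ?_
      have h2 : y.eq (A i) ⊓ y.mem a ≤ m := le_trans (mem_congr_left y (A i) a) (ih i)
      have h3 : mᶜ ⊓ (B i ⊓ y.eq (A i)) ⊓ y.mem a ≤ mᶜ ⊓ m := by
        refine le_inf (le_trans inf_le_left inf_le_left) (le_trans ?_ h2)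
        exact inf_le_inf_right _ (le_trans inf_le_right inf_le_right)
      rwa [compl_inf_self] at h3
    have h4 : (mk α A B).mem a ⊓ mᶜ ≤ m := by
      have h5 : (mk α A B).mem a ⊓ (⨅ y : BSet L, (y.mem (mk α A B) ⇨ (y.mem a)ᶜ)) ≤ m := by
        rw [hm]
        exact le_iSup (fun x : BSet L => (x.mem a ⊓ ⨅ y : BSet L, (y.mem x ⇨ (y.mem a)ᶜ)))
          (mk α A B)
      exact le_trans (inf_le_inf_left _ h1) h5
    calc (mk α A B).mem a = ((mk α A B).mem a ⊓ m) ⊔ ((mk α A B).mem a ⊓ mᶜ) := by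
          rw [← inf_sup_left, sup_compl_eq_top, inf_top_eq]
      _ ≤ m := sup_le inf_le_right h4

end Pool.Agent.Helper97.Ku.PkColl
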